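import Pool.Agent.H5.BP.All

/-!
# MP_6cbd4a_an: an indestructible Blaschke product that is not a maximal Blaschke product

The answer to Q1 is NO. There is an indestructible Blaschke product `f` without critical points in the
unit disk which is not univalent and which is not a maximal Blaschke product.

Definitions (all in `Pool.Agent.H5.BP.Stm`):

* `tau a z = (z - a) / (1 - conj a * z)`; the conformal automorphisms of the disk are `c * tau b`,
  `‖c‖ = 1`, `‖b‖ < 1`;
* `IsBlaschke f`: on the disk, `f z = exp (i θ) * z ^ k * ∏ (|a_i|/a_i) (a_i - z)/(1 - conj a_i * z)` with
  finitely or infinitely many `a_i ≠ 0` in the disk, `∑ (1 - |a_i|) < ∞`;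
* `IsIndestructible f`: `f` and all `T ∘ f`, `T` a conformal automorphism, are Blaschke products;
* `IsCriticalSet C`: `C` (multiplicity function on the disk) is the critical set of a nonconstant
  bounded analytic function;
* `Adm C f`: `f` is analytic on the disk, `‖f‖ ≤ 1`, `f' = 0` on `C` with multiplicities;
* `IsExtremal C F`: `F` is admissible and maximises `Re f ^ (N + 1) (0)`, `N = C 0`;
* `IsMaximal f`: `f = T ∘ F` on the disk, `F` extremal for an `H^∞` critical set, `T` a conformal
  automorphism.

Idea of the proof. `f` is a locally uniform limit of finite Blaschke products `P_k` with `P_k 0 = 0` whose
critical points tend to the unit circle, so that `f' ≠ 0` in the disk; `0 < |f' 0| < 1`. Then `f` is not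
maximal, because its critical set is empty, the extremal function of the empty set is the identity
(up to a rotation; Schwarz lemma) and `f` is not an automorphism. `P_{k+1}` is `Q ∘ ψ` with `Q` a small
perturbation of `P_k` with simple critical points and distinct critical values, and `ψ` a long
composition of maps of degree two branched over the (preimages of the) critical points of `Q`
(osculation). As the critical points of `Q` are close to the circle, `ψ` is close to the identity. The
mass of the `a`-points, the averages of `-log |τ_a ∘ Q ∘ ψ|` over circles, is under control uniformly in `ψ`
because away from the critical points of `Q` the inverse branches of `ψ` are defined on disks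
(Harnack's inequality, a good radius, truncation) and at most two preimages of `a` are close to critical
points of `Q`. So no mass is lost in the limit, and all `τ_a ∘ f` are Blaschke products.
-/

set_option autoImplicit false

namespace Pool.Agent.Results.MP_6cbd4a_an.IndestructibleNotMaximal

open Pool.Agent.H5.BP

/-- There is an indestructible Blaschke product, without critical points and not univalent, which is
not a maximal Blaschke product. -/
theorem result : ∃ f : ℂ → ℂ, IsIndestructible f ∧ ¬ IsMaximal f ∧
    (∀ z : ℂ, ‖z‖ < 1 → deriv f z ≠ 0) ∧ ¬ Set.InjOn f (Metric.ball 0 1) :=
  t_final

end Pool.Agent.Results.MP_6cbd4a_an.IndestructibleNotMaximal
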